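import Pool.Agent.D0H94.T13.StmD

/-!
# FM, module UPP: the upper bound of the total weight by the double sum

Author: helper52 (statement and paper proof: helper94, see `Pool/Agent/D0H94/T13/StmD.lean`).
-/

set_option autoImplicit false

namespace Pool.Agent.D0H52.FM

open Finset Pool.Agent.D0H94.T13

/-- the sum with the weights `kc m N` -/
noncomputable def S (f : ℕ → ℝ) (N : ℕ) : ℝ := ∑ m ∈ range (N + 1), f m * kc m N

theorem kc_zero (m N : ℕ) (h : N < 2 * m) : kc m N = 0 := by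
  unfold kc
  rw [if_neg (by omega)]

theorem kc_rec (m K : ℕ) : kc (m + 1) (K + 3) = kc m (K + 1) + kc m K := by
  unfold kc
  by_cases h1 : 2 * m ≤ K
  · rw [if_pos (by omega), if_pos (by omega), if_pos h1]
    have h2 : K + 3 - 2 * (m + 1) = (K - 2 * m) + 1 := by omega
    have h3 : K + 1 - 2 * m = (K - 2 * m) + 1 := by omega
    rw [h2, h3, Nat.choose_succ_succ]
    ring
  · by_cases h2 : 2 * m ≤ K + 1
    · rw [if_pos (by omega), if_pos h2, if_neg h1]
      have h3 : K + 3 - 2 * (m + 1) = 0 := by omega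
      have h4 : K + 1 - 2 * m = 0 := by omega
      rw [h3, h4]
      simp
    · rw [if_neg (by omega), if_neg h2, if_neg h1]

theorem S_eq (f : ℕ → ℝ) (N L : ℕ) (h : N + 1 ≤ L) : ∑ m ∈ range L, f m * kc m N = S f N := by
  unfold S
  symm
  refine sum_subset (range_subset_range.2 h) (fun m _ hm => ?_)
  rw [kc_zero m N (by rw [mem_range] at hm; omega)]
  simp

theorem S_rec (f : ℕ → ℝ) (K : ℕ) :
    S f (K + 3) = S (fun m => f (m + 1)) (K + 1) + S (fun m => f (m + 1)) K := by
  rw [← S_eq (fun m => f (m + 1)) (K + 1) (K + 3) (by omega),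
    ← S_eq (fun m => f (m + 1)) K (K + 3) (by omega), ← sum_add_distrib]
  unfold S
  rw [sum_range_succ']
  have h0 : kc 0 (K + 3) = 0 := by simp [kc]
  rw [h0]
  simp only [Nat.cast_zero, mul_zero, add_zero]
  refine sum_congr rfl (fun m _ => ?_)
  rw [kc_rec]
  push_cast
  ring

/-- positive, with bounded ratios -/
structure Rb (B : ℝ) (f : ℕ → ℝ) : Prop where
  pos : ∀ m, 0 < f m
  up : ∀ m, f (m + 1) ≤ B * f m
  dn : ∀ m, f m ≤ B * f (m + 1)

theorem Rb.succ {B : ℝ} {f : ℕ → ℝ} (h : Rb B f) : Rb B (fun m => f (m + 1)) :=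
  ⟨fun m => h.pos _, fun m => h.up _, fun m => h.dn _⟩

theorem Rb.one {B : ℝ} {f : ℕ → ℝ} (h : Rb B f) : 1 ≤ B := by
  have h1 := h.pos 0
  have h2 := h.pos 1
  have h3 := h.up 0
  have h4 := h.dn 0
  rw [zero_add] at h3 h4
  have hB : 0 < B := by
    by_contra hB
    have : B * f 0 ≤ 0 := mul_nonpos_of_nonpos_of_nonneg (not_lt.1 hB) h1.le
    linarith
  by_contra h5
  have h6 : B * f 0 < f 0 := by nlinarith
  have h7 : B * f 1 < f 1 := by nlinarith
  linarith

theorem S_nonneg {B : ℝ} {f : ℕ → ℝ} (h : Rb B f) (N : ℕ) : 0 ≤ S f N :=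
  sum_nonneg (fun m _ => mul_nonneg (h.pos m).le (by positivity))

theorem S_scal (f g : ℕ → ℝ) (B : ℝ) (h : ∀ m, f m ≤ B * g m) (N : ℕ) : S f N ≤ B * S g N := by
  unfold S
  rw [mul_sum]
  refine sum_le_sum (fun m _ => ?_)
  rw [← mul_assoc]
  exact mul_le_mul_of_nonneg_right (h m) (by positivity)

theorem S2 (f : ℕ → ℝ) : S f 2 = f 1 := by
  simp [S, sum_range_succ, kc]

theorem S3 (f : ℕ → ℝ) : S f 3 = f 1 := by
  simp [S, sum_range_succ, kc]

theorem S4 (f : ℕ → ℝ) : S f 4 = f 2 := by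
  simp [S, sum_range_succ, kc]

theorem S5 (f : ℕ → ℝ) : S f 5 = 2 * f 2 := by
  simp [S, sum_range_succ, kc, Nat.choose]
  ring

theorem step {B : ℝ} : ∀ (N : ℕ) (f : ℕ → ℝ), Rb B f → S f (N + 2 + 1) ≤ 2 * B * S f (N + 2) := by
  intro N
  induction N using Nat.strong_induction_on with
  | _ N ih =>
    intro f hf
    have hB := hf.one
    match N, ih with
    | 0, _ =>
      rw [show 0 + 2 + 1 = 3 from rfl, show 0 + 2 = 2 from rfl, S2, S3]
      have := hf.pos 1
      nlinarith
    | 1, _ =>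
      rw [show 1 + 2 + 1 = 4 from rfl, show 1 + 2 = 3 from rfl, S3, S4]
      have := hf.pos 1
      have := hf.up 1
      have h2 : f 2 ≤ B * f 1 := hf.up 1
      nlinarith
    | 2, _ =>
      rw [show 2 + 2 + 1 = 5 from rfl, show 2 + 2 = 4 from rfl, S4, S5]
      have := hf.pos 2
      nlinarith
    | K + 3, ih =>
      have e1 : K + 3 + 2 + 1 = (K + 3) + 3 := by ring
      have e2 : K + 3 + 2 = (K + 2) + 3 := by ring
      rw [e1, e2, S_rec f (K + 3), S_rec f (K + 2)]
      have h1 := ih (K + 1) (by omega) _ hf.succ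
      have h2 := ih K (by omega) _ hf.succ
      have e3 : K + 1 + 2 + 1 = K + 3 + 1 := by ring
      have e4 : K + 1 + 2 = K + 2 + 1 := by ring
      have e5 : K + 2 + 1 = K + 3 := by ring
      rw [e3, e4] at h1
      rw [mul_add]
      have h3 : S (fun m => f (m + 1)) (K + 3) ≤ 2 * B * S (fun m => f (m + 1)) (K + 2) := by
        rw [← e5]; exact h2
      exact add_le_add h1 h3

theorem steps {B : ℝ} (f : ℕ → ℝ) (hf : Rb B f) (N : ℕ) (hN : 2 ≤ N) (j : ℕ) :
    S f (N + j) ≤ (2 * B) ^ j * S f N := by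
  have hB := hf.one
  induction j with
  | zero => simp
  | succ j ih =>
    have h1 := step (N + j - 2) f hf
    have e1 : N + j - 2 + 2 = N + j := by omega
    rw [e1] at h1
    calc S f (N + (j + 1)) = S f (N + j + 1) := by rw [add_assoc]
      _ ≤ 2 * B * S f (N + j) := h1
      _ ≤ 2 * B * ((2 * B) ^ j * S f N) := mul_le_mul_of_nonneg_left ih (by positivity)
      _ = _ := by ring

/-- the double sum -/
noncomputable def D (f : ℕ → ℝ) (a b : ℕ) : ℝ := S (fun m => S (fun m' => f (m + m')) b) a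

theorem D_rec (f : ℕ → ℝ) (K b : ℕ) :
    D f (K + 3) b = D (fun m => f (m + 1)) (K + 1) b + D (fun m => f (m + 1)) K b := by
  unfold D
  rw [S_rec]
  have h1 : (fun m : ℕ => S (fun m' => f (m + 1 + m')) b) =
      (fun m : ℕ => S (fun m' => f (m + m' + 1)) b) := by
    funext m
    congr 1
    funext m'
    congr 1
    ring
  rw [h1]

theorem split {B : ℝ} (b : ℕ) (hb : 2 ≤ b) : ∀ (a : ℕ) (f : ℕ → ℝ), Rb B f →
    S f (b + (a + 2)) ≤ (2 * B) ^ 4 * B ^ 2 * D f (a + 2) b := by
  intro a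
  induction a using Nat.strong_induction_on with
  | _ a ih =>
    intro f hf
    have hB := hf.one
    have hB2 : (1 : ℝ) ≤ 2 * B := by linarith
    have hs1 : S f b ≤ B * S (fun m' => f (1 + m')) b := by
      refine S_scal _ _ _ (fun m => ?_) b
      rw [add_comm 1 m]
      exact hf.dn m
    have hs2 : S f b ≤ B ^ 2 * S (fun m' => f (2 + m')) b := by
      refine S_scal _ _ _ (fun m => ?_) b
      have h1 := hf.dn m
      have h2 := hf.dn (m + 1)
      have h3 : B * f (m + 1) ≤ B * (B * f (m + 1 + 1)) :=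
        mul_le_mul_of_nonneg_left h2 (by linarith)
      rw [show 2 + m = m + 1 + 1 by ring]
      calc f m ≤ B * f (m + 1) := h1
        _ ≤ B * (B * f (m + 1 + 1)) := h3
        _ = _ := by ring
    have hn0 : 0 ≤ S f b := S_nonneg hf b
    have hn1 : 0 ≤ S (fun m' => f (1 + m')) b := by
      refine sum_nonneg (fun m _ => mul_nonneg (hf.pos _).le (by positivity))
    have hp : ∀ j : ℕ, j ≤ 4 → (2 * B) ^ j ≤ (2 * B) ^ 4 := fun j hj => pow_le_pow_right₀ hB2 hj
    match a, ih with
    | 0, _ =>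
      have h1 := steps f hf b hb 2
      unfold D
      rw [show 0 + 2 = 2 from rfl, S2]
      calc S f (b + 2) ≤ (2 * B) ^ 2 * S f b := h1
        _ ≤ (2 * B) ^ 4 * (B * S (fun m' => f (1 + m')) b) :=
          mul_le_mul (hp 2 (by norm_num)) hs1 hn0 (by positivity)
        _ ≤ (2 * B) ^ 4 * (B ^ 2 * S (fun m' => f (1 + m')) b) := by
          refine mul_le_mul_of_nonneg_left ?_ (by positivity)
          refine mul_le_mul_of_nonneg_right ?_ hn1
          nlinarith
        _ = _ := by ring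
    | 1, _ =>
      have h1 := steps f hf b hb 3
      unfold D
      rw [show 1 + 2 = 3 from rfl, S3]
      calc S f (b + 3) ≤ (2 * B) ^ 3 * S f b := h1
        _ ≤ (2 * B) ^ 4 * (B * S (fun m' => f (1 + m')) b) :=
          mul_le_mul (hp 3 (by norm_num)) hs1 hn0 (by positivity)
        _ ≤ (2 * B) ^ 4 * (B ^ 2 * S (fun m' => f (1 + m')) b) := by
          refine mul_le_mul_of_nonneg_left ?_ (by positivity)
          refine mul_le_mul_of_nonneg_right ?_ hn1
          nlinarith
        _ = _ := by ring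
    | 2, _ =>
      have h1 := steps f hf b hb 4
      unfold D
      rw [show 2 + 2 = 4 from rfl, S4]
      calc S f (b + 4) ≤ (2 * B) ^ 4 * S f b := h1
        _ ≤ (2 * B) ^ 4 * (B ^ 2 * S (fun m' => f (2 + m')) b) :=
          mul_le_mul_of_nonneg_left hs2 (by positivity)
        _ = _ := by ring
    | K + 3, ih =>
      have e1 : b + (K + 3 + 2) = (b + (K + 2)) + 3 := by ring
      have e2 : K + 3 + 2 = (K + 2) + 3 := by ring
      rw [e1, e2, S_rec f (b + (K + 2)), D_rec f (K + 2)]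
      have h1 := ih (K + 1) (by omega) _ hf.succ
      have h2 := ih K (by omega) _ hf.succ
      have e3 : b + (K + 1 + 2) = b + (K + 2) + 1 := by ring
      have e4 : K + 1 + 2 = K + 2 + 1 := by ring
      rw [e3, e4] at h1
      rw [mul_add]
      exact add_le_add h1 h2

theorem t_UPP : S_UPP := by
  intro h hpos B hup hdn
  have hf : Rb B h := ⟨hpos, hup, hdn⟩
  have hB := hf.one
  refine ⟨B * ((2 * B) ^ 3 * ((2 * B) ^ 4 * B ^ 2)), by positivity, fun n hn => ?_⟩
  have h1 : ZZ h (2 * n) ≤ B * S h (2 * n + 1) := by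
    unfold ZZ S
    rw [sum_range_succ' (fun m => h m * (kc m (2 * n + 1) : ℝ))]
    have h0 : kc 0 (2 * n + 1) = 0 := by simp [kc]
    rw [h0]
    simp only [Nat.cast_zero, mul_zero, add_zero]
    rw [mul_sum]
    refine sum_le_sum (fun m _ => ?_)
    rw [← mul_assoc]
    exact mul_le_mul_of_nonneg_right (hdn m) (by positivity)
  have h2 := steps h hf (2 * n - 2) (by omega) 3
  rw [show 2 * n - 2 + 3 = 2 * n + 1 by omega] at h2
  have h3 := split (n - 1) (by omega) (n - 3) h hf
  rw [show n - 3 + 2 = n - 1 by omega, show n - 1 + (n - 1) = 2 * n - 2 by omega] at h3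
  have h4 : D h (n - 1) (n - 1) = DD h n := by
    unfold D DD
    rw [← S_eq _ (n - 1) (n + 1) (by omega)]
    refine sum_congr rfl (fun m _ => ?_)
    rw [← S_eq _ (n - 1) (n + 1) (by omega), sum_mul]
    refine sum_congr rfl (fun m' _ => ?_)
    ring
  rw [h4] at h3
  calc ZZ h (2 * n) ≤ B * S h (2 * n + 1) := h1
    _ ≤ B * ((2 * B) ^ 3 * S h (2 * n - 2)) := mul_le_mul_of_nonneg_left h2 (by linarith)
    _ ≤ B * ((2 * B) ^ 3 * ((2 * B) ^ 4 * B ^ 2 * DD h n)) :=
      mul_le_mul_of_nonneg_left (mul_le_mul_of_nonneg_left h3 (by positivity)) (by linarith)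
    _ = _ := by ring

end Pool.Agent.D0H52.FM
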