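import Pool.Agent.D0H94.T13.StmE
import Pool.Agent.D0H52.FM.Upp

/-!
# FM, module REN, part (a): the renewal theorem for the weights `ν ^ m`

Author: helper52 (statement and paper proof: helper94, see `Pool/Agent/D0H94/T13/StmE.lean`).
-/

set_option autoImplicit false

namespace Pool.Agent.D0H52.FM

open Filter Topology Finset Pool.Agent.D0H94.T13

/-- the renewal function -/
noncomputable def u (μ ν : ℝ) (N : ℕ) : ℝ := S (fun m => ν ^ m) N / μ ^ N

theorem S_mul (f : ℕ → ℝ) (a : ℝ) (N : ℕ) : S (fun m => a * f m) N = a * S f N := by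
  unfold S
  rw [mul_sum]
  exact sum_congr rfl (fun m _ => by ring)

theorem u_rec {μ ν : ℝ} (hμ : μ ≠ 0) (N : ℕ) :
    u μ ν (N + 3) = ν / μ ^ 2 * u μ ν (N + 1) + ν / μ ^ 3 * u μ ν N := by
  unfold u
  rw [S_rec]
  have h1 : (fun m : ℕ => ν ^ (m + 1)) = (fun m : ℕ => ν * ν ^ m) := by
    funext m
    ring
  rw [h1, S_mul, S_mul]
  field_simp
  ring

theorem u0 (μ ν : ℝ) : u μ ν 0 = 1 := by
  simp [u, S, kc]

theorem u1 (μ ν : ℝ) : u μ ν 1 = 0 := by
  simp [u, S, kc, sum_range_succ]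

theorem u2 (μ ν : ℝ) : u μ ν 2 = ν / μ ^ 2 := by
  simp [u, S2]

theorem u_inv {μ ν : ℝ} (hμ : μ ≠ 0) (h : ν / μ ^ 2 + ν / μ ^ 3 = 1) (N : ℕ) :
    u μ ν (N + 2) + u μ ν (N + 1) + ν / μ ^ 3 * u μ ν N = 1 := by
  induction N with
  | zero =>
    rw [zero_add, zero_add, u0, u1, u2]
    linarith
  | succ N ih =>
    have e : N + 1 + 2 = N + 3 := by ring
    have e2 : N + 1 + 1 = N + 2 := by ring
    rw [e, e2, u_rec hμ]
    have h2 : ν / μ ^ 2 = 1 - ν / μ ^ 3 := by linarith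
    rw [h2]
    linarith

theorem u_lim {μ ν : ℝ} (h1 : 1 < μ) (h3 : μ < 3) (hν : ν * (1 / μ ^ 2 + 1 / μ ^ 3) = 1) :
    Tendsto (u μ ν) atTop (𝓝 ((1 + μ) / (3 + 2 * μ))) := by
  have hμ : μ ≠ 0 := by linarith
  have h : ν / μ ^ 2 + ν / μ ^ 3 = 1 := by rw [← hν]; ring
  set q : ℝ := ν / μ ^ 3 with hq
  set c : ℝ := (1 + μ) / (3 + 2 * μ) with hc
  have hq1 : q = 1 / (1 + μ) := by
    have h4 : ν / μ ^ 2 = q * μ := by
      rw [hq]
      field_simp
    rw [h4] at h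
    have h5 : (1 + μ) ≠ 0 := by linarith
    rw [eq_div_iff h5]
    linarith
  have hcq : c * (2 + q) = 1 := by
    rw [hq1, hc]
    have h5 : (1 + μ) ≠ 0 := by linarith
    have h6 : (3 + 2 * μ) ≠ 0 := by linarith
    field_simp
    ring
  have hq4 : 1 / 4 < q := by
    rw [hq1]
    exact one_div_lt_one_div_of_lt (by linarith) (by linarith)
  have hq0 : q < 1 := by
    rw [hq1, div_lt_one (by linarith)]
    linarith
  set e : ℕ → ℝ := fun N => u μ ν N - c with he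
  have hrec : ∀ N, e (N + 2) = - e (N + 1) - q * e N := by
    intro N
    have h7 := u_inv hμ h N
    simp only [he]
    rw [← hq] at h7
    linarith
  have hQ : ∀ N, e (N + 1) ^ 2 + e (N + 1) * e N + q * e N ^ 2 =
      q ^ N * (e 1 ^ 2 + e 1 * e 0 + q * e 0 ^ 2) := by
    intro N
    induction N with
    | zero => rw [pow_zero, one_mul, zero_add]
    | succ N ih =>
      have e1 : N + 1 + 1 = N + 2 := by ring
      rw [e1, hrec, pow_succ q N, mul_comm (q ^ N) q, mul_assoc, ← ih]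
      ring
  have hb : ∀ N, e N ^ 2 ≤ q ^ N * ((e 1 ^ 2 + e 1 * e 0 + q * e 0 ^ 2) / (q - 1 / 4)) := by
    intro N
    have h8 : (q - 1 / 4) * e N ^ 2 ≤ q ^ N * (e 1 ^ 2 + e 1 * e 0 + q * e 0 ^ 2) := by
      rw [← hQ N]
      nlinarith [sq_nonneg (e (N + 1) + e N / 2)]
    have h9 : 0 < q - 1 / 4 := by linarith
    rw [← mul_div_assoc, le_div_iff₀ h9]
    linarith
  have hl : Tendsto (fun N => e N ^ 2) atTop (𝓝 0) := by
    have h10 : Tendsto (fun N : ℕ => q ^ N * ((e 1 ^ 2 + e 1 * e 0 + q * e 0 ^ 2) / (q - 1 / 4)))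
        atTop (𝓝 0) := by
      have := (tendsto_pow_atTop_nhds_zero_of_lt_one (by linarith) hq0).mul_const
        ((e 1 ^ 2 + e 1 * e 0 + q * e 0 ^ 2) / (q - 1 / 4))
      rwa [zero_mul] at this
    exact squeeze_zero (fun N => sq_nonneg _) hb h10
  have hl2 : Tendsto (fun N => |e N|) atTop (𝓝 0) := by
    have h11 := (Real.continuous_sqrt.tendsto 0).comp hl
    rw [Real.sqrt_zero] at h11
    refine h11.congr (fun N => ?_)
    simp only [Function.comp_apply]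
    exact Real.sqrt_sq_eq_abs _
  have hl3 : Tendsto e atTop (𝓝 0) := (tendsto_zero_iff_abs_tendsto_zero e).2 hl2
  have hl4 := hl3.add_const c
  rw [zero_add] at hl4
  refine hl4.congr (fun N => ?_)
  simp [he]

theorem ZZ_pow {μ ν : ℝ} (hμ : μ ≠ 0) (hν : ν ≠ 0) (n : ℕ) :
    ZZ (fun m => ν ^ m) n / μ ^ n = μ / ν * u μ ν (n + 1) := by
  have h1 : ν * ZZ (fun m => ν ^ m) n = S (fun m => ν ^ m) (n + 1) := by
    unfold ZZ S
    rw [sum_range_succ' (fun m => ν ^ m * (kc m (n + 1) : ℝ)), mul_sum]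
    have h0 : kc 0 (n + 1) = 0 := by simp [kc]
    rw [h0]
    simp only [Nat.cast_zero, mul_zero, add_zero]
    refine sum_congr rfl (fun m _ => ?_)
    ring
  unfold u
  rw [← h1]
  field_simp
  ring

theorem t_RENA : ∀ μ ν : ℝ, 1 < μ → μ < 3 → 0 < ν → ν * (1 / μ ^ 2 + 1 / μ ^ 3) = 1 →
    Tendsto (fun n : ℕ => ZZ (fun m => ν ^ m) n / μ ^ n) atTop
      (𝓝 ((1 + μ) / (3 + 2 * μ) * μ / ν)) := by
  intro μ ν h1 h3 hν h
  have h4 := ((u_lim h1 h3 h).comp (tendsto_add_atTop_nat 1)).const_mul (μ / ν)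
  have h5 : μ / ν * ((1 + μ) / (3 + 2 * μ)) = (1 + μ) / (3 + 2 * μ) * μ / ν := by ring
  rw [h5] at h4
  refine h4.congr (fun n => ?_)
  rw [ZZ_pow (by linarith) hν.ne']
  rfl

end Pool.Agent.D0H52.FM
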