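import Pool.Agent.D0H94.T13.StmE
import Pool.Agent.D0H52.FM.Rena
import Pool.Agent.D0H81.FM.Sharp

/-!
# FM, module REN: the renewal theorem with weights

Author: helper52 (statement and paper proof: helper94, see `Pool/Agent/D0H94/T13/StmE.lean`).
-/

set_option autoImplicit false

namespace Pool.Agent.D0H52.FM

open Filter Topology Finset Pool.Agent.D0H94.T13

theorem E_lim : Tendsto (fun n : ℕ => Real.exp (-(1 * Real.log n ^ 2))) atTop (𝓝 0) := by
  have h1 : Tendsto (fun n : ℕ => Real.log n) atTop atTop :=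
    Real.tendsto_log_atTop.comp tendsto_natCast_atTop_atTop
  have h2 : Tendsto (fun n : ℕ => Real.log n ^ 2) atTop atTop :=
    (tendsto_pow_atTop (by norm_num)).comp h1
  have h3 := Real.tendsto_exp_atBot.comp (tendsto_neg_atTop_atBot.comp h2)
  refine h3.congr (fun n => ?_)
  simp [Function.comp_apply]

/-- the uniform ratio in the window -/
theorem unif {ν c L : ℝ} (hν : 0 < ν) (hc : 0 < c) (h : ℕ → ℝ) (g B : ℝ)
    (hlim : Tendsto (fun m : ℕ => h m / (ν ^ m * (m : ℝ) ^ g)) atTop (𝓝 B)) (ε : ℝ) (hε : 0 < ε) :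
    ∀ᶠ n : ℕ in atTop, ∀ m : ℕ, |(m : ℝ) - c * n| ≤ L * (√(n : ℝ) * Real.log n) →
      |h m / (ν ^ m * (c * n) ^ g) - B| ≤ ε := by
  set l : Filter (ℕ × ℕ) := comap Prod.fst atTop ⊓
    𝓟 {p : ℕ × ℕ | |(p.2 : ℝ) - c * p.1| ≤ L * (√(p.1 : ℝ) * Real.log p.1)} with hl
  have hv : Tendsto (Prod.fst : ℕ × ℕ → ℕ) l atTop := tendsto_comap.mono_left inf_le_left
  have hw : ∀ᶠ p : ℕ × ℕ in l, |(p.2 : ℝ) - c * p.1| ≤ L * (√(p.1 : ℝ) * Real.log p.1) :=
    (mem_inf_of_right (mem_principal_self _))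
  obtain ⟨hr, hu⟩ := Pool.Agent.D0H81.FM.win hc hv hw
  have hT1 := hlim.comp hu
  have hT2 : Tendsto (fun p : ℕ × ℕ => (((p.2 : ℝ) / p.1) / c) ^ g) l (𝓝 1) := by
    have h1 := (hr.div_const c)
    rw [div_self hc.ne'] at h1
    have h2 := h1.rpow_const (p := g) (Or.inl one_ne_zero)
    rwa [Real.one_rpow] at h2
  have hT := hT1.mul hT2
  rw [mul_one] at hT
  have hT3 : Tendsto (fun p : ℕ × ℕ => h p.2 / (ν ^ p.2 * (c * p.1) ^ g)) l (𝓝 B) := by
    refine hT.congr' ?_
    filter_upwards [hv.eventually (eventually_ge_atTop 1), hu.eventually (eventually_ge_atTop 1)]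
      with p hp1 hp2
    have h1 : (0 : ℝ) < (p.1 : ℝ) := by exact_mod_cast hp1
    have h2 : (0 : ℝ) < (p.2 : ℝ) := by exact_mod_cast hp2
    simp only [Function.comp_apply]
    have h3 : (((p.2 : ℝ) / p.1) / c) ^ g = (p.2 : ℝ) ^ g / (c * p.1) ^ g := by
      rw [div_div, mul_comm (p.1 : ℝ) c, Real.div_rpow h2.le (by positivity)]
    rw [h3]
    have h4 : (0 : ℝ) < (p.2 : ℝ) ^ g := Real.rpow_pos_of_pos h2 _
    have h5 : (0 : ℝ) < (c * p.1) ^ g := Real.rpow_pos_of_pos (by positivity) _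
    have h6 : (0 : ℝ) < ν ^ p.2 := by positivity
    field_simp
  have hT4 := (Metric.tendsto_nhds.1 hT3) ε hε
  rw [hl, eventually_inf_principal, eventually_comap] at hT4
  filter_upwards [hT4] with n hn m hm
  have h7 := hn (n, m) rfl hm
  rw [Real.dist_eq] at h7
  exact h7.le

theorem t_REN : S_REN := by
  intro μ ν h1 h3 hν hμν h hpos hlow hup g B hB hlim
  set c : ℝ := (1 + μ) / (3 + 2 * μ) with hc0
  have hc : 0 < c := by
    rw [hc0]
    exact div_pos (by linarith) (by linarith)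
  have hμ0 : 0 < μ := by linarith
  set h0 : ℕ → ℝ := fun m => ν ^ m with hh0
  have hpos0 : ∀ m, 0 < h0 m := fun m => by simp only [hh0]; positivity
  obtain ⟨L1, hL1, hc1⟩ := Pool.Agent.D0H74.FM.t_CONC μ ν h1 hν hμν h hpos hlow hup 1 one_pos
  obtain ⟨L2, hL2, hc2⟩ := Pool.Agent.D0H74.FM.t_CONC μ ν h1 hν hμν h0 hpos0
    ⟨1, one_pos, fun m => by simp [hh0]⟩ ⟨0, fun m _ => by simp [hh0]⟩ 1 one_pos
  rw [← hc0] at hc1 hc2
  set L : ℝ := max L1 L2 with hL
  have hfar : ∀ (k : ℕ → ℝ) (M : ℝ), (∀ m, 0 < k m) → M ≤ L →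
      (∀ n : ℕ, 2 ≤ n → ∑ m ∈ (range (n + 1)).filter (fun m : ℕ =>
        M * (√(n : ℝ) * Real.log n) ≤ |(m : ℝ) - c * n|), k m * kc (m + 1) (n + 1) ≤
          Real.exp (-(1 * Real.log n ^ 2)) * ZZ k n) →
      (∀ᶠ n : ℕ in atTop, 0 < ZZ k n) →
      Tendsto (fun n : ℕ => (∑ m ∈ (range (n + 1)).filter (fun m : ℕ =>
        ¬ L * (√(n : ℝ) * Real.log n) ≤ |(m : ℝ) - c * n|), k m * kc (m + 1) (n + 1)) / ZZ k n)
        atTop (𝓝 1) := by
    intro k M hk hM hb hZ
    have e1 : Tendsto (fun n : ℕ => 1 - (∑ m ∈ (range (n + 1)).filter (fun m : ℕ =>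
        L * (√(n : ℝ) * Real.log n) ≤ |(m : ℝ) - c * n|), k m * kc (m + 1) (n + 1)) / ZZ k n)
        atTop (𝓝 (1 - 0)) := by
      refine tendsto_const_nhds.sub ?_
      refine squeeze_zero' ?_ ?_ E_lim
      · filter_upwards [hZ] with n hn
        exact div_nonneg (sum_nonneg (fun m _ => mul_nonneg (hk m).le (by positivity))) hn.le
      · filter_upwards [hZ, eventually_ge_atTop 2] with n hn hn2
        rw [div_le_iff₀ hn]
        refine le_trans ?_ (hb n hn2)
        refine sum_le_sum_of_subset_of_nonneg ?_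
          (fun m _ _ => mul_nonneg (hk m).le (by positivity))
        intro m hm
        rw [mem_filter] at hm ⊢
        refine ⟨hm.1, le_trans ?_ hm.2⟩
        refine mul_le_mul_of_nonneg_right hM ?_
        have : (1 : ℝ) ≤ n := by exact_mod_cast (by omega : 1 ≤ n)
        exact mul_nonneg (Real.sqrt_nonneg _) (Real.log_nonneg this)
    rw [sub_zero] at e1
    refine e1.congr' ?_
    filter_upwards [hZ] with n hn
    have e2 := sum_filter_add_sum_filter_not (range (n + 1))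
      (fun m : ℕ => L * (√(n : ℝ) * Real.log n) ≤ |(m : ℝ) - c * n|)
      (fun m => k m * (kc (m + 1) (n + 1) : ℝ))
    have e3 : ZZ k n = ∑ m ∈ range (n + 1), k m * (kc (m + 1) (n + 1) : ℝ) := rfl
    rw [← e3] at e2
    rw [eq_div_iff hn.ne', sub_mul, one_mul, div_mul_cancel₀ _ hn.ne']
    linarith
  -- positivity of the totals
  have hRA := t_RENA μ ν h1 h3 hν hμν
  rw [← hc0] at hRA
  have hlimpos : 0 < c * μ / ν := by positivity
  have hZ0 : ∀ᶠ n : ℕ in atTop, 0 < ZZ h0 n := by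
    filter_upwards [hRA.eventually (lt_mem_nhds hlimpos)] with n hn
    have h5 : (0 : ℝ) < μ ^ n := by positivity
    by_contra hneg
    have h6 := div_nonpos_of_nonpos_of_nonneg (not_lt.1 hneg) h5.le
    have h7 : ZZ (fun m => ν ^ m) n / μ ^ n = ZZ h0 n / μ ^ n := rfl
    rw [h7] at hn
    linarith
  have hZ : ∀ᶠ n : ℕ in atTop, 0 < ZZ h n := by
    obtain ⟨c0, hc0', hlow'⟩ := hlow
    filter_upwards [hZ0] with n hn
    have h5 : c0 * ZZ h0 n ≤ ZZ h n := by
      unfold ZZ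
      rw [mul_sum]
      refine sum_le_sum (fun m _ => ?_)
      rw [← mul_assoc]
      exact mul_le_mul_of_nonneg_right (hlow' m) (by positivity)
    exact lt_of_lt_of_le (by positivity) h5
  have hN1 := hfar h L1 hpos (le_max_left _ _) hc1 hZ
  have hN2 := hfar h0 L2 hpos0 (le_max_right _ _) hc2 hZ0
  -- the ratio of the near sums
  set N1 : ℕ → ℝ := fun n => ∑ m ∈ (range (n + 1)).filter (fun m : ℕ =>
        ¬ L * (√(n : ℝ) * Real.log n) ≤ |(m : ℝ) - c * n|), h m * kc (m + 1) (n + 1) with hN1d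
  set N2 : ℕ → ℝ := fun n => ∑ m ∈ (range (n + 1)).filter (fun m : ℕ =>
        ¬ L * (√(n : ℝ) * Real.log n) ≤ |(m : ℝ) - c * n|), h0 m * kc (m + 1) (n + 1) with hN2d
  have hN2pos : ∀ᶠ n : ℕ in atTop, 0 < N2 n := by
    filter_upwards [hN2.eventually (lt_mem_nhds one_pos), hZ0] with n hn hz
    by_contra hneg
    have h6 := div_nonpos_of_nonpos_of_nonneg (not_lt.1 hneg) hz.le
    linarith
  have hratio : Tendsto (fun n : ℕ => N1 n / ((c * n) ^ g * N2 n)) atTop (𝓝 B) := by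
    rw [Metric.tendsto_nhds]
    intro ε hε
    filter_upwards [unif (L := L) hν hc h g B hlim (ε / 2) (by linarith), hN2pos,
      eventually_ge_atTop 1] with n hn hn2 hn1
    rw [Real.dist_eq]
    have hw : (0 : ℝ) < (c * n) ^ g := by
      have : (0 : ℝ) < n := by exact_mod_cast hn1
      exact Real.rpow_pos_of_pos (by positivity) _
    have h8 : |N1 n - B * ((c * n) ^ g * N2 n)| ≤ ε / 2 * ((c * n) ^ g * N2 n) := by
      simp only [hN1d, hN2d]
      rw [mul_sum, mul_sum, mul_sum, ← sum_sub_distrib]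
      refine (abs_sum_le_sum_abs _ _).trans (sum_le_sum (fun m hm => ?_))
      have h9 := hn m (not_le.1 (mem_filter.1 hm).2).le
      have hp : 0 < ν ^ m * (c * n) ^ g := by positivity
      have h10 : h m * (kc (m + 1) (n + 1) : ℝ) - B * ((c * n) ^ g * (h0 m * kc (m + 1) (n + 1))) =
          (h m / (ν ^ m * (c * n) ^ g) - B) * (ν ^ m * (c * n) ^ g * kc (m + 1) (n + 1)) := by
        simp only [hh0]
        field_simp
      rw [h10, abs_mul, abs_of_nonneg (a := ν ^ m * (c * n) ^ g * (kc (m + 1) (n + 1) : ℝ))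
        (by positivity)]
      refine (mul_le_mul_of_nonneg_right h9 (by positivity)).trans (le_of_eq ?_)
      simp only [hh0]
      ring
    have h11 : 0 < (c * n) ^ g * N2 n := by positivity
    have h12 : N1 n / ((c * n) ^ g * N2 n) - B =
        (N1 n - B * ((c * n) ^ g * N2 n)) / ((c * n) ^ g * N2 n) := by
      field_simp
    rw [h12, abs_div, abs_of_pos h11, div_lt_iff₀ h11]
    refine lt_of_le_of_lt h8 ?_
    exact mul_lt_mul_of_pos_right (by linarith) h11
  have hall := ((hratio.mul hN2).div hN1 one_ne_zero).mul hRA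
  rw [mul_one, div_one] at hall
  refine hall.congr' ?_
  filter_upwards [hZ, hZ0, hN2pos, hN1.eventually (lt_mem_nhds one_pos), eventually_ge_atTop 1]
    with n hz hz0 hn2 hn1 hn
  have hn1p : 0 < N1 n := by
    by_contra hneg
    have h6 := div_nonpos_of_nonpos_of_nonneg (not_lt.1 hneg) hz.le
    linarith
  have hw : (0 : ℝ) < (c * n) ^ g := by
    have : (0 : ℝ) < n := by exact_mod_cast hn
    exact Real.rpow_pos_of_pos (by positivity) _
  have hm : (0 : ℝ) < μ ^ n := by positivity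
  have h7 : ZZ (fun m => ν ^ m) n = ZZ h0 n := rfl
  simp only [Pi.div_apply]
  rw [h7]
  change N1 n / ((c * n) ^ g * N2 n) * (N2 n / ZZ h0 n) / (N1 n / ZZ h n) * (ZZ h0 n / μ ^ n) = _
  field_simp

end Pool.Agent.D0H52.FM
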